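import Pool.Agent.W58.GU.Stm

/-!
Project GU: functionals are small on the tails of `Z` (S_SHR).
-/

namespace Pool.Agent.W977.GU
open Finset Filter Topology Pool.Agent.W58.GU

theorem n_mono (P : Par) {i j : ℕ} (h : i < j) : P.n i ≤ P.n j := by
  obtain ⟨a, ha, h1, h2⟩ := P.hn j
  have h3 := h1 i h
  have hm := P.m_pos j
  have h4 : 3 * a ≤ (3 * a) ^ (2 * P.m j + 1) := by
    apply Nat.le_self_pow
    omega
  have h5 : (3 * a) ^ (2 * P.m j + 1) ≤ P.m j ^ 2 * (3 * a) ^ (2 * P.m j + 1) := by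
    apply Nat.le_mul_of_pos_left
    positivity
  omega

/-- sum of absolute coordinates -/
noncomputable def l1 (x : ℕ →₀ ℝ) : ℝ := ∑ a ∈ x.support, |x a|

theorem support_avg (c : ℝ) (r : ℕ) (w : ℕ → (ℕ →₀ ℝ)) (A B : ℕ)
    (h : ∀ l < r, ∀ a ∈ (w l).support, A ≤ a ∧ a < B) :
    ∀ a ∈ (c • ∑ l ∈ range r, w l : ℕ →₀ ℝ).support, A ≤ a ∧ a < B := by
  classical
  intro a ha
  have h1 := Finsupp.support_smul ha
  have h2 : ∃ l ∈ range r, a ∈ (w l).support := by
    by_contra hcon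
    push Not at hcon
    rw [Finsupp.mem_support_iff] at h1
    apply h1
    rw [Finsupp.finsetSum_apply]
    exact Finset.sum_eq_zero fun l hl => Finsupp.notMem_support_iff.1 (hcon l hl)
  obtain ⟨l, hl, hal⟩ := h2
  exact h l (Finset.mem_range.1 hl) a hal

section
variable {P : Par} {X : Type} [NormedAddCommGroup X] [NormedSpace ℝ X]

theorem pr_avg (f : ℕ →₀ ℚ) (c : ℝ) (r : ℕ) (w : ℕ → (ℕ →₀ ℝ)) :
    pr f (c • ∑ l ∈ range r, w l : ℕ →₀ ℝ) = c * ∑ l ∈ range r, pr f (w l) := by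
  rw [← pr_fsum, ← pr_smul_right]
  rfl

theorem phi_avg (M : Model P X) (φ : X →L[ℝ] ℝ) (c : ℝ) (E : Finset ℕ) (w : ℕ → (ℕ →₀ ℝ)) :
    φ (M.emb (c • ∑ l ∈ E, w l)) = c * ∑ l ∈ E, φ (M.emb (w l)) := by
  rw [M.emb_smul, M.emb_sum, map_smul, map_sum, smul_eq_mul]

/-- the averages -/
noncomputable def Y (P : Par) (v : ℕ → (ℕ →₀ ℝ)) (s j : ℕ) : ℕ →₀ ℝ :=
  ((1 : ℝ) / ((P.m j * P.n j : ℕ) : ℝ)) • ∑ l ∈ range (P.m j * P.n j), v (s + l)

/-- positions and indices of the averages -/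
noncomputable def st (P : Par) (v : ℕ → (ℕ →₀ ℝ)) : ℕ → ℕ × ℕ
  | 0 => (0, 0)
  | k + 1 => ((st P v k).1 + P.m (st P v k).2 * P.n (st P v k).2,
      max ((st P v k).2 + 1) ⌈((k : ℝ) + 1) * l1 (Y P v (st P v k).1 (st P v k).2)⌉₊)

theorem shr (hL7 : S_L7) (hAVG : S_AVG) (hRF : S_RF) : S_SHR := by
  classical
  intro P X _ _ M φ η hη
  by_contra hcon
  push Not at hcon
  -- vectors with a large value, positive
  have h1 : ∀ N : ℕ, ∃ x : ℕ →₀ ℝ, (∀ a ∈ x.support, N ≤ a) ∧ Bd P 1 x ∧ η < φ (M.emb x) := by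
    intro N
    obtain ⟨x, hx1, hx2, hx3⟩ := hcon N
    rcases le_or_gt 0 (φ (M.emb x)) with h0 | h0
    · rw [abs_of_nonneg h0] at hx3
      exact ⟨x, hx1, hx2, hx3⟩
    · rw [abs_of_neg h0] at hx3
      refine ⟨(-1 : ℝ) • x, fun a ha => hx1 a (Finsupp.support_smul ha), ?_, ?_⟩
      · intro f hf
        have e : pr f (((-1 : ℝ) • x : ℕ →₀ ℝ)) = (-1) * pr f x := by
          rw [← pr_smul_right]
          rfl
        rw [e, abs_mul, abs_neg, abs_one, one_mul]
        exact hx2 f hf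
      · rw [M.emb_smul, map_smul, smul_eq_mul]
        linarith
  choose x hx1 hx2 hx3 using h1
  -- block sequence
  set N : ℕ → ℕ := fun k => Nat.rec 0 (fun _ n => max n ((x n).support.sup id + 1)) k with hN
  have hN1 : ∀ k, N (k + 1) = max (N k) ((x (N k)).support.sup id + 1) := fun k => rfl
  have hNm : Monotone N := monotone_nat_of_le_succ fun k => by
    rw [hN1]
    exact le_max_left _ _
  set v : ℕ → (ℕ →₀ ℝ) := fun k => x (N k) with hv
  have hvs : ∀ k, ∀ a ∈ (v k).support, N k ≤ a ∧ a < N (k + 1) := by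
    intro k a ha
    refine ⟨hx1 (N k) a ha, ?_⟩
    rw [hN1]
    apply lt_of_lt_of_le _ (le_max_right _ _)
    have : a ≤ (x (N k)).support.sup id := Finset.le_sup (f := id) ha
    omega
  have hvlt : ∀ k l, k < l → Lt (v k).support (v l).support := by
    intro k l hkl a ha b hb
    have a1 := (hvs k a ha).2
    have a2 := (hvs l b hb).1
    have a3 : N (k + 1) ≤ N l := hNm hkl
    omega
  -- the averages
  set s : ℕ → ℕ := fun k => (st P v k).1 with hs
  set j : ℕ → ℕ := fun k => (st P v k).2 with hj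
  set y : ℕ → (ℕ →₀ ℝ) := fun k => Y P v (s k) (j k) with hy
  have hs1 : ∀ k, s (k + 1) = s k + P.m (j k) * P.n (j k) := fun k => rfl
  have hj1 : ∀ k, j (k + 1) = max (j k + 1) ⌈((k : ℝ) + 1) * l1 (y k)⌉₊ := fun k => rfl
  have hjm : StrictMono j := strictMono_nat_of_lt_succ fun k => by
    rw [hj1]
    exact lt_of_lt_of_le (Nat.lt_succ_self _) (le_max_left _ _)
  have hsm : Monotone s := monotone_nat_of_le_succ fun k => by
    rw [hs1]
    omega
  have hrpos : ∀ i, 0 < P.m i * P.n i := fun i => Nat.mul_pos (P.m_pos i) (P.n_pos i)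
  have hys : ∀ k, ∀ a ∈ (y k).support, N (s k) ≤ a ∧ a < N (s (k + 1)) := by
    intro k
    apply support_avg
    intro l hl a ha
    have a1 := hvs (s k + l) a ha
    have a2 : N (s k) ≤ N (s k + l) := hNm (by omega)
    have a0 : s k + l + 1 ≤ s (k + 1) := by
      rw [hs1]
      omega
    have a3 : N (s k + l + 1) ≤ N (s (k + 1)) := hNm a0
    omega
  have hyphi : ∀ k, η < φ (M.emb (y k)) := by
    intro k
    have e := phi_avg M φ ((1 : ℝ) / ((P.m (j k) * P.n (j k) : ℕ) : ℝ))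
      (range (P.m (j k) * P.n (j k))) (fun l => v (s k + l))
    have e2 : φ (M.emb (y k)) = (1 : ℝ) / ((P.m (j k) * P.n (j k) : ℕ) : ℝ) *
      ∑ l ∈ range (P.m (j k) * P.n (j k)), φ (M.emb (v (s k + l))) := e
    have hr : (0 : ℝ) < ((P.m (j k) * P.n (j k) : ℕ) : ℝ) := by exact_mod_cast hrpos (j k)
    have hsum : ((P.m (j k) * P.n (j k) : ℕ) : ℝ) * η <
        ∑ l ∈ range (P.m (j k) * P.n (j k)), φ (M.emb (v (s k + l))) := by
      have h2 : ∑ _l ∈ range (P.m (j k) * P.n (j k)), η = ((P.m (j k) * P.n (j k) : ℕ) : ℝ) * η := by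
        rw [Finset.sum_const, Finset.card_range, nsmul_eq_mul]
      rw [← h2]
      apply Finset.sum_lt_sum_of_nonempty
      · rw [Finset.nonempty_range_iff]
        exact (hrpos (j k)).ne'
      · intro l _
        exact hx3 (N (s k + l))
    rw [e2, div_mul_eq_mul_div, one_mul, lt_div_iff₀ hr]
    linarith
  have hRIS : IsRIS P 2 y j := by
    refine ⟨?_, hjm, ?_, ?_, ?_⟩
    · intro k l hkl a ha b hb
      have a1 := (hys k a ha).2
      have a2 := (hys l b hb).1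
      have a3 : N (s (k + 1)) ≤ N (s l) := hNm (hsm hkl)
      omega
    · intro k f hf
      have e : pr f (y k) = (1 : ℝ) / ((P.m (j k) * P.n (j k) : ℕ) : ℝ) *
          ∑ l ∈ range (P.m (j k) * P.n (j k)), pr f (v (s k + l)) :=
        pr_avg f _ _ _
      have hr : (0 : ℝ) < ((P.m (j k) * P.n (j k) : ℕ) : ℝ) := by exact_mod_cast hrpos (j k)
      rw [e, abs_mul, abs_of_pos (by positivity), div_mul_eq_mul_div, one_mul, div_le_iff₀ hr]
      have h2 : |∑ l ∈ range (P.m (j k) * P.n (j k)), pr f (v (s k + l))| ≤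
          ∑ _l ∈ range (P.m (j k) * P.n (j k)), (1 : ℝ) :=
        (Finset.abs_sum_le_sum_abs _ _).trans (Finset.sum_le_sum fun l _ => hx2 _ f hf)
      rw [Finset.sum_const, Finset.card_range, nsmul_eq_mul, mul_one] at h2
      linarith
    · intro k i hi f hf
      have h2 := hL7 P 1 (fun l => v (s k + l)) (P.m (j k) * P.n (j k)) zero_le_one
        (fun a b hab _ => hvlt _ _ (by omega)) (fun l _ => hx2 _) i
        (Nat.mul_le_mul (P.m_mono.monotone hi.le) (n_mono P hi)) f hf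
      rw [mul_one] at h2
      exact h2
    · intro k
      have h2 : ((k : ℝ) + 1) * l1 (y k) ≤ (j (k + 1) : ℝ) := by
        refine (Nat.le_ceil _).trans ?_
        rw [hj1]
        exact_mod_cast le_max_right _ _
      have h3 : (j (k + 1) : ℝ) ≤ P.m (j (k + 1)) := by
        have := P.hm1 (j (k + 1))
        have h4 : j (k + 1) ≤ P.m (j (k + 1)) := by omega
        exact_mod_cast h4
      exact h2.trans h3
  -- final contradiction
  have hfin : ∀ i, (P.m i : ℝ) * η ≤ 6 * ‖φ‖ := by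
    intro i
    have hn := P.n_pos i
    have hnR : (0 : ℝ) < P.n i := by exact_mod_cast hn
    have hF := hRF P 2 y j (by norm_num) hRIS (P.n i) hn (Finset.Ico (P.n i) (2 * P.n i))
      (fun k hk => (Finset.mem_Ico.1 hk).1)
    have hcard : (Finset.Ico (P.n i) (2 * P.n i)).card = P.n i := by
      rw [Nat.card_Ico]
      omega
    have hE := hAVG P 2 (1 / (P.n i : ℝ)) (Finset.Ico (P.n i) (2 * P.n i)) y j (by norm_num)
      (by positivity) hF i hcard le_rfl
    set z : ℕ →₀ ℝ := ((P.m i : ℝ) / P.n i) • ∑ k ∈ Finset.Ico (P.n i) (2 * P.n i), y k with hz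
    have hb : ‖M.emb z‖ ≤ 6 := by
      rw [M.norm_emb]
      have := nz_le hE.bd
      linarith
    have e : φ (M.emb z) = (P.m i : ℝ) / P.n i *
        ∑ k ∈ Finset.Ico (P.n i) (2 * P.n i), φ (M.emb (y k)) := phi_avg M φ _ _ _
    have hsum : (P.n i : ℝ) * η ≤ ∑ k ∈ Finset.Ico (P.n i) (2 * P.n i), φ (M.emb (y k)) := by
      have h2 : ∑ _k ∈ Finset.Ico (P.n i) (2 * P.n i), η = (P.n i : ℝ) * η := by
        rw [Finset.sum_const, hcard, nsmul_eq_mul]
      rw [← h2]
      exact Finset.sum_le_sum fun k _ => (hyphi k).le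
    have h3 : (P.m i : ℝ) * η ≤ φ (M.emb z) := by
      rw [e]
      have h4 : (P.m i : ℝ) / P.n i * ((P.n i : ℝ) * η) ≤ (P.m i : ℝ) / P.n i *
          ∑ k ∈ Finset.Ico (P.n i) (2 * P.n i), φ (M.emb (y k)) :=
        mul_le_mul_of_nonneg_left hsum (by positivity)
      have h5 : (P.m i : ℝ) / P.n i * ((P.n i : ℝ) * η) = (P.m i : ℝ) * η := by
        field_simp
      linarith
    have h6 : φ (M.emb z) ≤ ‖φ‖ * ‖M.emb z‖ := (le_abs_self _).trans (φ.le_opNorm _)
    have h7 : ‖φ‖ * ‖M.emb z‖ ≤ ‖φ‖ * 6 := mul_le_mul_of_nonneg_left hb (norm_nonneg _)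
    linarith
  obtain ⟨i, hi⟩ := exists_nat_gt (6 * ‖φ‖ / η)
  have h2 := hfin i
  rw [div_lt_iff₀ hη] at hi
  have h3 : (i : ℝ) ≤ P.m i := by
    have := P.hm1 i
    have h4 : i ≤ P.m i := by omega
    exact_mod_cast h4
  have h4 : (i : ℝ) * η ≤ P.m i * η := mul_le_mul_of_nonneg_right h3 hη.le
  linarith

end

end Pool.Agent.W977.GU
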